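import Pool.Agent.E8helper50.SR.S4

/-!
# Piece QON of project SR (MP_1a662b_al): multiplicities are at most one (helper52)
-/

set_option autoImplicit false

universe u

namespace Pool.Agent.E8helper52.SR

open Pool.Agent.E8helper50.SR

lemma zcase : ∀ j : ZMod 2, j = 0 ∨ j = 1 := by decide

section

variable {F : Type u} [Field F] (B : SAlg F)

lemma m00 {a b : B} (ha : a ∈ B.gr 0) (hb : b ∈ B.gr 0) : a * b ∈ B.gr 0 := by
  simpa using B.mul_mem 0 0 a b ha hb

lemma m01 {a b : B} (ha : a ∈ B.gr 0) (hb : b ∈ B.gr 1) : a * b ∈ B.gr 1 := by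
  simpa using B.mul_mem 0 1 a b ha hb

lemma m10 {a b : B} (ha : a ∈ B.gr 1) (hb : b ∈ B.gr 0) : a * b ∈ B.gr 1 := by
  simpa using B.mul_mem 1 0 a b ha hb

lemma m11 {a b : B} (ha : a ∈ B.gr 1) (hb : b ∈ B.gr 1) : a * b ∈ B.gr 0 := by
  have h := B.mul_mem 1 1 a b ha hb
  have e : (1 : ZMod 2) + 1 = 0 := by decide
  rwa [e] at h

/-- the case of an odd `w` -/
lemma oddCase {e f u w : B} (he : ∀ x ∈ B.gr 0, ∃ c : F, e * x * e = c • e)
    (hf : ∀ x ∈ B.gr 0, ∃ c : F, f * x * f = c • f) (hu : u ∈ B.gr 1) (hw : w ∈ B.gr 1)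
    (heu : e * u = u) (huf : u * f = u) (h : u * w * u ≠ 0) :
    ∀ v ∈ B.gr 1, e * v = v → v * f = v → ∃ c : F, v = c • u := by
  intro v hv hev hvf
  obtain ⟨c, hc⟩ := he (u * w) (m11 B hu hw)
  obtain ⟨c', hc'⟩ := hf (w * v) (m11 B hw hv)
  have h1 : u * w * e = c • e := by rw [← hc, ← mul_assoc, heu]
  have hc0 : c ≠ 0 := by
    rintro rfl
    apply h
    calc u * w * u = u * w * (e * u) := by rw [heu]
      _ = (u * w * e) * u := by rw [mul_assoc (u * w) e u]
      _ = 0 := by rw [h1, zero_smul, zero_mul]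
  have h2 : u * w * v = c • v := by
    calc u * w * v = u * w * (e * v) := by rw [hev]
      _ = (u * w * e) * v := by rw [mul_assoc (u * w) e v]
      _ = c • v := by rw [h1, smul_mul_assoc, hev]
  have h3 : u * w * v = c' • u := by
    calc u * w * v = (u * f) * w * (v * f) := by rw [huf, hvf]
      _ = u * (f * (w * v) * f) := by simp only [mul_assoc]
      _ = c' • u := by rw [hc', mul_smul_comm, huf]
  refine ⟨c⁻¹ * c', ?_⟩
  rw [mul_smul, ← h3, h2, smul_smul, inv_mul_cancel₀ hc0, one_smul]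

/-- the odd part of `e B e` is at most one-dimensional -/
lemma cornerCase (hB : GSP B) {e u : B} (he : ∀ x ∈ B.gr 0, ∃ c : F, e * x * e = c • e)
    (hu : u ∈ B.gr 1) (heu : e * u = u) (hue : u * e = u) (h0 : u ≠ 0) :
    ∀ v ∈ B.gr 1, e * v = v → v * e = v → ∃ c : F, v = c • u := by
  obtain ⟨j, w, hw, hne⟩ := hB 1 u hu h0
  have hj : j = 0 ∨ j = 1 := zcase j
  rcases hj with rfl | rfl
  · intro v hv hev hve
    obtain ⟨c, hc⟩ := he w hw
    obtain ⟨c4, hc4⟩ := he (u * u) (m11 B hu hu)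
    obtain ⟨c5, hc5⟩ := he (v * u) (m11 B hv hu)
    have h1 : u * w * u = c • (u * u) := by
      calc u * w * u = (u * e) * w * (e * u) := by rw [hue, heu]
        _ = u * (e * w * e) * u := by simp only [mul_assoc]
        _ = c • (u * u) := by rw [hc, mul_smul_comm, smul_mul_assoc, hue]
    have h4 : u * u = c4 • e := by
      rw [← hc4, mul_assoc e (u * u) e, mul_assoc u u e, hue, ← mul_assoc, heu]
    have h5 : v * u = c5 • e := by
      rw [← hc5, mul_assoc e (v * u) e, mul_assoc v u e, hue, ← mul_assoc, hev]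
    have hc0 : c4 ≠ 0 := by
      rintro rfl
      apply hne
      rw [h1, h4, zero_smul, smul_zero]
    refine ⟨c4⁻¹ * c5, ?_⟩
    have h6 : c4 • v = c5 • u := by
      calc c4 • v = v * (u * u) := by rw [h4, mul_smul_comm, hve]
        _ = (v * u) * u := by rw [mul_assoc]
        _ = c5 • u := by rw [h5, smul_mul_assoc, heu]
    rw [mul_smul, ← h6, smul_smul, inv_mul_cancel₀ hc0, one_smul]
  · exact oddCase B he he hu hw heu hue hne

/-- the even part of a graded semiprime superalgebra is semiprime -/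
lemma evenSP (hB : GSP B) {g : B} (hg : g ∈ B.gr 0) (h0 : g ≠ 0) :
    ∃ h ∈ B.gr 0, g * h * g ≠ 0 := by
  obtain ⟨j, h, hh, hne⟩ := hB 0 g hg h0
  have hj : j = 0 ∨ j = 1 := zcase j
  rcases hj with rfl | rfl
  · exact ⟨h, hh, hne⟩
  · obtain ⟨j, h2, hh2, hne2⟩ := hB 1 (g * h * g) (m10 B (m01 B hg hh) hg) hne
    have hj : j = 0 ∨ j = 1 := zcase j
    rcases hj with rfl | rfl
    · refine ⟨h2, hh2, fun h3 => hne2 ?_⟩
      have : g * h * g * h2 * (g * h * g) = g * h * (g * h2 * g) * (h * g) := by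
        simp only [mul_assoc]
      rw [this, h3, mul_zero, zero_mul]
    · refine ⟨h * g * h2, m11 B (m10 B hh hg) hh2, fun h3 => hne2 ?_⟩
      have : g * h * g * h2 * (g * h * g) = g * (h * g * h2) * g * (h * g) := by
        simp only [mul_assoc]
      rw [this, h3, zero_mul]

end

theorem t_QON : S_QON.{u} := by
  intro F _ B hB e he0 f hf0 hee hff he hf
  by_cases hall : ∀ x ∈ B.gr 1, e * x * f = 0
  · exact ⟨0, Submodule.zero_mem _, by rw [mul_zero, zero_mul],
      fun x hx => ⟨0, by rw [hall x hx, smul_zero]⟩⟩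
  push Not at hall
  obtain ⟨x, hx, hne⟩ := hall
  obtain ⟨u, hu⟩ : ∃ u : B, u = e * x * f := ⟨_, rfl⟩
  rw [← hu] at hne
  have hu1 : u ∈ B.gr 1 := by
    rw [hu]; exact m10 B (m01 B he0 hx) hf0
  have heu : e * u = u := by rw [hu, ← mul_assoc, ← mul_assoc, hee]
  have huf : u * f = u := by rw [hu, mul_assoc, hff]
  refine ⟨u, hu1, by rw [heu, huf], ?_⟩
  suffices H : ∀ v ∈ B.gr 1, e * v = v → v * f = v → ∃ c : F, v = c • u by
    intro z hz
    exact H _ (m10 B (m01 B he0 hz) hf0) (by rw [← mul_assoc, ← mul_assoc, hee])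
      (by rw [mul_assoc, hff])
  by_cases hodd : ∃ w ∈ B.gr 1, u * w * u ≠ 0
  · obtain ⟨w, hw, hwne⟩ := hodd
    exact oddCase B he hf hu1 hw heu huf hwne
  push Not at hodd
  obtain ⟨j, w, hw, hwne⟩ := hB 1 u hu1 hne
  have hj : j = 0 ∨ j = 1 := zcase j
  rcases hj with rfl | rfl
  swap
  · exact absurd (hodd w hw) hwne
  obtain ⟨g, hg⟩ : ∃ g : B, g = u * w * u := ⟨_, rfl⟩
  rw [← hg] at hwne
  have hg0 : g ∈ B.gr 0 := by
    rw [hg]; exact m11 B (m10 B hu1 hw) hu1
  have heg : e * g = g := by rw [hg, ← mul_assoc, ← mul_assoc, heu]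
  have hgf : g * f = g := by rw [hg, mul_assoc, huf]
  obtain ⟨h, hh, hhne⟩ := evenSP B hB hg0 hwne
  obtain ⟨c, hc⟩ := hf (h * g) (m00 B hh hg0)
  have hghg : g * h * g = c • g := by
    calc g * h * g = (g * f) * h * (g * f) := by rw [hgf]
      _ = g * (f * (h * g) * f) := by simp only [mul_assoc]
      _ = c • g := by rw [hc, mul_smul_comm, hgf]
  have hc0 : c ≠ 0 := by
    rintro rfl
    exact hhne (by rw [hghg, zero_smul])
  have key : ∀ v : B, v * f = v → v * (h * e) * g = c • v := by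
    intro v hv
    calc v * (h * e) * g = v * h * (e * g) := by simp only [mul_assoc]
      _ = (v * f) * h * (g * f) := by rw [heg, hgf, hv]
      _ = v * (f * (h * g) * f) := by simp only [mul_assoc]
      _ = c • v := by rw [hc, mul_smul_comm, hv]
  have hhe : h * e ∈ B.gr 0 := m00 B hh he0
  have hu2 : u * (h * e) ≠ 0 := by
    intro h1
    have h2 := key u huf
    rw [h1, zero_mul] at h2
    exact hne ((smul_eq_zero.1 h2.symm).resolve_left hc0)
  intro v hv hev hvf
  obtain ⟨a, ha⟩ := cornerCase B hB he (m10 B hu1 hhe) (by rw [← mul_assoc, heu])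
    (by rw [mul_assoc, mul_assoc, hee]) hu2 (v * (h * e)) (m10 B hv hhe)
    (by rw [← mul_assoc, hev]) (by rw [mul_assoc, mul_assoc, hee])
  refine ⟨a, ?_⟩
  have h1 := key v hvf
  rw [ha, smul_mul_assoc, key u huf, smul_comm] at h1
  have h2 : c • (v - a • u) = 0 := by rw [smul_sub, h1, sub_self]
  exact sub_eq_zero.1 ((smul_eq_zero.1 h2).resolve_left hc0)

end Pool.Agent.E8helper52.SR
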